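import Pool.Agent.Helper97.GH.UPD

/-!
MP_d210aa_gt: ST_KER.
-/

set_option autoImplicit false

open Finset Matrix

namespace Pool.Agent.Helper44.GH

open Pool.Agent.Helper44.GF Pool.Agent.Helper44.GN

theorem ker_inj {n m : ℕ} (B : Matrix (Fin m) (Fin n) ℝ) (W : Matrix (Fin n) (Fin m) ℝ)
    (h : IsUnit (B * W).det) : Function.Injective W.mulVec := by
  intro x y hxy
  have h1 : (B * W) *ᵥ x = (B * W) *ᵥ y := by
    rw [← Matrix.mulVec_mulVec, ← Matrix.mulVec_mulVec]
    congr 1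
  have h2 := congrArg (fun v => (B * W)⁻¹ *ᵥ v) h1
  simp only [Matrix.mulVec_mulVec] at h2
  rwa [Matrix.nonsing_inv_mul _ h, Matrix.one_mulVec, Matrix.one_mulVec] at h2

theorem ker_inj1 {n m : ℕ} (B : Matrix (Fin m) (Fin n) ℝ) (W : Matrix (Fin n) (Fin m) ℝ)
    (h : B * W = 1) : Function.Injective W.mulVec := by
  apply ker_inj B W
  rw [h, Matrix.det_one]
  exact isUnit_one

theorem ker_tau {n : ℕ} {Y : Type} [Fintype Y] [DecidableEq Y] (δ : ℝ) (r : Y → ℝ)
    (hδ : 0 < δ) (hr : ∀ y, 0 < r y) (η : Finset (Fin n × Y)) : tau δ r η ∈ Og n := by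
  intro i
  unfold tau
  have : 0 ≤ ∑ y, if (i, y) ∈ η then r y else 0 := by
    apply Finset.sum_nonneg
    intro y _
    split_ifs
    · exact (hr y).le
    · exact le_rfl
  linarith

theorem st_KER (hLOC : ST_LOC) (hMPL : ST_MPL) (hGSP : ST_GSP) (hGSM : ST_GSM) (hCMP : ST_CMP)
    (hCRT : ST_CRT) (hBPV : ST_BPV) (hINV : ST_INV) : ST_KER := by
  intro n m Y _ _ s ζ δ r z V hMD hV
  obtain ⟨hMS, hB1, hB2⟩ := hBPV n m Y s ζ δ r z V hMD hV
  refine ⟨Bp V δ r z, hB1, ?_⟩
  set B := Bp V δ r z with hB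
  obtain ⟨hc, hp, hk⟩ := hCMP n m Y s ζ δ r z V B hMD hB1
  have hWe : ∀ w : KB B, B * (V + Matrix.of (w : Fin n → Fin m → ℝ)) = 1 := by
    intro w
    have : B * Matrix.of (w : Fin n → Fin m → ℝ) = 0 := w.2
    rw [Matrix.mul_add, hB1, this, add_zero]
  have hslm : ∀ w : KB B, (∀ e : KB B, M1 (V + Matrix.of (w : Fin n → Fin m → ℝ))
      (Matrix.of (e : Fin n → Fin m → ℝ)) δ r z = 0) → SLM (GB B V δ r z) w := by
    intro w hw
    refine hGSM n m Y s ζ δ r z V B hMD hB1 w hw ?_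
    intro e he
    have hBp : Bp (V + Matrix.of (w : Fin n → Fin m → ℝ)) δ r z = B := by
      refine hCRT n m Y s ζ δ r z _ B hMD (hWe w) ?_
      intro Z hZ
      exact hw ⟨Z, hZ⟩
    obtain ⟨_, _, h2⟩ := hBPV n m Y s ζ δ r z _ hMD (ker_inj1 B _ (hWe w))
    refine hLOC n m Y s ζ δ r z _ _ hMD (ker_inj1 B _ (hWe w)) ?_ ?_
    · intro a b
      rw [(h2 (Matrix.of (e : Fin n → Fin m → ℝ))).1 a b, hBp]
      have : B * Matrix.of (e : Fin n → Fin m → ℝ) = 0 := e.2
      rw [this]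
      rfl
    · intro h0
      apply he
      apply Subtype.ext
      exact h0
  have hdich : ∀ w : KB B, SLM (GB B V δ r z) w ∨ SLP (GB B V δ r z) w := by
    intro w
    by_cases h : ∃ e : KB B, M1 (V + Matrix.of (w : Fin n → Fin m → ℝ))
      (Matrix.of (e : Fin n → Fin m → ℝ)) δ r z ≠ 0
    · exact Or.inr (hGSP n m Y s ζ δ r z V B hMD hB1 w h)
    · push Not at h
      exact Or.inl (hslm w h)
  have hV0 : V + Matrix.of ((0 : KB B) : Fin n → Fin m → ℝ) = V := by
    have : Matrix.of ((0 : KB B) : Fin n → Fin m → ℝ) = (0 : Matrix (Fin n) (Fin m) ℝ) := rfl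
    rw [this, add_zero]
  have h0 : SLM (GB B V δ r z) 0 := by
    apply hslm
    intro e
    rw [hV0, (hB2 (Matrix.of (e : Fin n → Fin m → ℝ))).2.1]
    have : B * Matrix.of (e : Fin n → Fin m → ℝ) = 0 := e.2
    rw [this]
    simp
  have hmax := hMPL (KB B) (GB B V δ r z) hc hp hk hdich 0 h0
  intro W
  by_cases hdet : (B * W).det = 0
  · rw [hdet, abs_zero, zero_mul]
    exact hMS.le
  · have hu : IsUnit (B * W).det := isUnit_iff_ne_zero.2 hdet
    have hWinj := ker_inj B W hu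
    set C := (B * W)⁻¹ with hC
    have hBWC : B * (W * C) = 1 := by
      rw [← Matrix.mul_assoc, hC, Matrix.mul_nonsing_inv _ hu]
    have hmem : W * C - V ∈ KB B := by
      show B * Matrix.of (W * C - V) = 0
      have : Matrix.of (W * C - V) = W * C - V := rfl
      rw [this, Matrix.mul_sub, hBWC, hB1, sub_self]
    have h1 := hmax ⟨W * C - V, hmem⟩
    have e1 : GB B V δ r z ⟨W * C - V, hmem⟩ = MS (W * C) δ r z := by
      unfold GB
      congr 1
      show V + (W * C - V) = W * C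
      abel
    have e2 : GB B V δ r z 0 = MS V δ r z := by
      unfold GB
      rw [hV0]
    rw [e1, e2] at h1
    have hCdet : C.det = ((B * W).det)⁻¹ := by
      rw [hC, Matrix.det_nonsing_inv, Ring.inverse_eq_inv']
    have hCne : C.det ≠ 0 := by
      rw [hCdet]
      exact inv_ne_zero hdet
    have e3 : MS (W * C) δ r z = |(B * W).det| * MS W δ r z := by
      unfold MS
      rw [Finset.mul_sum]
      refine Finset.sum_congr rfl fun η _ => ?_
      unfold W1
      have hy := ker_tau δ r hMD.d0 hMD.r0 η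
      have hq := ((hINV n m W 0 hWinj _ hy).2 C hCne).2.2
      have hqp : 0 < qf W (tau δ r η) := (upd_pd W hWinj _ hy).det_pos
      rw [hq, Real.mul_rpow (sq_nonneg _) hqp.le, hCdet]
      have e4 : ((((B * W).det)⁻¹) ^ 2 : ℝ) ^ (-(1 / 2) : ℝ) = |(B * W).det| := by
        rw [← sq_abs, abs_inv, Real.rpow_neg (sq_nonneg _), ← Real.sqrt_eq_rpow,
          Real.sqrt_sq (by positivity), inv_inv]
      rw [e4]
      ring
    rw [← e3]
    exact h1

end Pool.Agent.Helper44.GH
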