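import Pool.Agent.Helper97.GH.UPD

/-!
MP_d210aa_gt: ST_MAF.
-/

set_option autoImplicit false

open Finset Matrix

namespace Pool.Agent.Helper44.GH

open Pool.Agent.Helper44.GF Pool.Agent.Helper44.GN

theorem maf_tr (m : ℕ) (A : Matrix (Fin m) (Fin m) ℝ) (u r : Fin m → ℝ) (k : ℝ) :
    Matrix.trace (A + k • Matrix.vecMulVec u r) = Matrix.trace A + k * (u ⬝ᵥ r) := by
  rw [Matrix.trace_add, Matrix.trace_smul, Matrix.trace_vecMulVec, smul_eq_mul]

theorem maf_trsq (m : ℕ) (A : Matrix (Fin m) (Fin m) ℝ) (u r : Fin m → ℝ) (k : ℝ) :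
    Matrix.trace ((A + k • Matrix.vecMulVec u r) * (A + k • Matrix.vecMulVec u r)) =
      Matrix.trace (A * A) + 2 * k * (u ⬝ᵥ (r ᵥ* A)) + k ^ 2 * (u ⬝ᵥ r) ^ 2 := by
  have e : (A + k • Matrix.vecMulVec u r) * (A + k • Matrix.vecMulVec u r) =
      A * A + k • Matrix.vecMulVec (A *ᵥ u) r + k • Matrix.vecMulVec u (r ᵥ* A) +
        (k * k) • Matrix.vecMulVec u ((r ⬝ᵥ u) • r) := by
    rw [Matrix.add_mul, Matrix.mul_add, Matrix.mul_add, Matrix.mul_smul, Matrix.smul_mul,
      Matrix.smul_mul, Matrix.mul_smul, Matrix.mul_vecMulVec, Matrix.vecMulVec_mul,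
      Matrix.vecMulVec_mul_vecMulVec, smul_smul]
    abel
  rw [e, Matrix.trace_add, Matrix.trace_add, Matrix.trace_add, Matrix.trace_smul,
    Matrix.trace_smul, Matrix.trace_smul, Matrix.trace_vecMulVec, Matrix.trace_vecMulVec,
    Matrix.trace_vecMulVec, smul_eq_mul, smul_eq_mul, smul_eq_mul, dotProduct_smul, smul_eq_mul]
  have e2 : (A *ᵥ u) ⬝ᵥ r = u ⬝ᵥ (r ᵥ* A) := by
    rw [dotProduct_comm, Matrix.dotProduct_mulVec, dotProduct_comm]
  rw [e2, dotProduct_comm r u]
  ring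

theorem maf_G {n m : ℕ} (V Z : Matrix (Fin n) (Fin m) ℝ) (hV : Function.Injective V.mulVec)
    (y : Fin n → ℝ) (hy : y ∈ Og n) :
    (BB V Z y)ᵀ * TT V V y * BB V Z y = (TT V Z y)ᵀ * BB V Z y := by
  have hH := upd_pd V hV y hy
  have h1 : (BB V Z y)ᵀ * TT V V y = (TT V Z y)ᵀ := by
    unfold BB
    rw [Matrix.transpose_mul, upd_symm _ hH, Matrix.mul_assoc,
      Matrix.nonsing_inv_mul _ (upd_det0 _ hH), Matrix.mul_one]
  rw [h1]

theorem st_MAF (hUPD : ST_UPD) (_hSGF : ST_SGF) : ST_MAF := by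
  intro n m V Z hV
  refine ⟨?_, ?_, ?_, ?_⟩
  · intro y hy i
    refine ⟨qf V y * hh V y i, fun s hs => ?_⟩
    obtain ⟨_, _, _, _, h5, _⟩ := hUPD n m V Z hV y hy i s hs
    show qf V _ = qf V y + _
    rw [h5]
    ring
  · intro a b y hy i
    refine ⟨qf V y * hh V y i * BB V Z y a b + qf V y * (uu V y i a * rr V Z y i b), fun s hs => ?_⟩
    obtain ⟨_, _, h3, _, h5, _, h7, _⟩ := hUPD n m V Z hV y hy i s hs
    show qf V _ * BB V Z _ a b = qf V y * BB V Z y a b + _
    rw [h5, h7, Matrix.add_apply, Matrix.smul_apply, Matrix.vecMulVec_apply, smul_eq_mul]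
    have h1 : (1 + s * hh V y i) ≠ 0 := by positivity
    field_simp
    ring
  · intro y hy i
    refine ⟨qf V y * hh V y i * (Matrix.trace (BB V Z y * BB V Z y) - Matrix.trace (BB V Z y) ^ 2)
      + qf V y * (2 * (uu V y i ⬝ᵥ (rr V Z y i ᵥ* BB V Z y)
        - Matrix.trace (BB V Z y) * (uu V y i ⬝ᵥ rr V Z y i))), fun s hs => ?_⟩
    obtain ⟨_, _, h3, _, h5, _, h7, _⟩ := hUPD n m V Z hV y hy i s hs
    show qf V _ * (Matrix.trace (BB V Z _ * BB V Z _) - Matrix.trace (BB V Z _) ^ 2) =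
      qf V y * (Matrix.trace (BB V Z y * BB V Z y) - Matrix.trace (BB V Z y) ^ 2) + _
    rw [h5, h7, maf_tr, maf_trsq]
    have h1 : (1 + s * hh V y i) ≠ 0 := by positivity
    field_simp
    ring
  · intro y hy i
    set G := TT Z Z y - (BB V Z y)ᵀ * TT V V y * BB V Z y with hG
    refine ⟨qf V y * hh V y i * (Matrix.trace (BB V Z y) ^ 2 + sgm V Z y)
      + qf V y * (2 * (Matrix.trace (BB V Z y) * (uu V y i ⬝ᵥ rr V Z y i))
        + (((TT V V y)⁻¹ *ᵥ rr V Z y i) ⬝ᵥ rr V Z y i) - uu V y i ⬝ᵥ (uu V y i ᵥ* G)),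
      fun s hs => ?_⟩
    obtain ⟨hy', _, h3, _, h5, h6, h7, _⟩ := hUPD n m V Z hV y hy i s hs
    have hH := upd_pd V hV y hy
    have h1 : (1 + s * hh V y i) ≠ 0 := by positivity
    set k := s / (1 + s * hh V y i) with hk
    have hk1 : s - s * k * hh V y i = k := by
      rw [hk]
      field_simp
      ring
    have hG' : TT Z Z (Function.update y i (y i + s)) -
        (BB V Z (Function.update y i (y i + s)))ᵀ * TT V V (Function.update y i (y i + s)) *
          BB V Z (Function.update y i (y i + s)) =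
        G + k • Matrix.vecMulVec (rr V Z y i) (rr V Z y i) := by
      rw [maf_G V Z hV _ hy', hG, maf_G V Z hV _ hy, h7, upd_TT' Z Z, upd_TT' V Z,
        Matrix.transpose_add, Matrix.transpose_smul, Matrix.transpose_vecMulVec]
      have e1 : (TT V Z y)ᵀ *ᵥ uu V y i = Z i - rr V Z y i := by
        have : rr V Z y i = Z i - (BB V Z y)ᵀ *ᵥ V i := rfl
        rw [this]
        unfold BB uu
        rw [Matrix.transpose_mul, upd_symm _ hH, Matrix.mulVec_mulVec]
        abel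
      have e2 : V i ᵥ* BB V Z y = Z i - rr V Z y i := by
        have : rr V Z y i = Z i - (BB V Z y)ᵀ *ᵥ V i := rfl
        rw [this, Matrix.mulVec_transpose]
        abel
      have e3 : V i ⬝ᵥ uu V y i = hh V y i := rfl
      rw [Matrix.add_mul, Matrix.mul_add, Matrix.mul_add, Matrix.mul_smul, Matrix.smul_mul,
        Matrix.smul_mul, Matrix.mul_smul, Matrix.mul_vecMulVec, Matrix.vecMulVec_mul,
        Matrix.vecMulVec_mul_vecMulVec, e1, e2, e3]
      ext a b
      simp only [Matrix.add_apply, Matrix.sub_apply, Matrix.smul_apply, Matrix.vecMulVec_apply,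
        smul_eq_mul, Pi.smul_apply, Pi.sub_apply]
      linear_combination (Z i a * rr V Z y i b) * hk1
    have hs' : sgm V Z (Function.update y i (y i + s)) = sgm V Z y
        + k * ((((TT V V y)⁻¹ *ᵥ rr V Z y i) ⬝ᵥ rr V Z y i) - uu V y i ⬝ᵥ (uu V y i ᵥ* G))
        - k ^ 2 * (uu V y i ⬝ᵥ rr V Z y i) ^ 2 := by
      have : sgm V Z (Function.update y i (y i + s)) = Matrix.trace
          (((TT V V y)⁻¹ - k • Matrix.vecMulVec (uu V y i) (uu V y i)) *
            (G + k • Matrix.vecMulVec (rr V Z y i) (rr V Z y i))) := by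
        unfold sgm
        rw [hG', h6]
      rw [this, Matrix.sub_mul, Matrix.mul_add, Matrix.mul_add, Matrix.mul_smul, Matrix.smul_mul,
        Matrix.smul_mul, Matrix.mul_smul, Matrix.mul_vecMulVec, Matrix.vecMulVec_mul,
        Matrix.vecMulVec_mul_vecMulVec, Matrix.trace_sub, Matrix.trace_add, Matrix.trace_add,
        Matrix.trace_smul, Matrix.trace_smul, Matrix.trace_smul, Matrix.trace_smul,
        Matrix.trace_vecMulVec, Matrix.trace_vecMulVec, Matrix.trace_vecMulVec, dotProduct_smul]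
      simp only [smul_eq_mul]
      show Matrix.trace ((TT V V y)⁻¹ * G) + _ - _ = Matrix.trace ((TT V V y)⁻¹ * G) + _ - _
      ring
    show qf V _ * (Matrix.trace (BB V Z _) ^ 2 + sgm V Z _) =
      qf V y * (Matrix.trace (BB V Z y) ^ 2 + sgm V Z y) + _
    rw [hs', h5, h7, maf_tr, hk]
    field_simp
    ring

end Pool.Agent.Helper44.GH
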