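import Pool.Agent.Helper44.GH.Stmts

/-!
MP_d210aa_gt: ST_UPD.
-/

set_option autoImplicit false

open Finset Matrix

namespace Pool.Agent.Helper44.GH

open Pool.Agent.Helper44.GF Pool.Agent.Helper44.GN

theorem upd_TT {n m : ℕ} (V W : Matrix (Fin n) (Fin m) ℝ) (y : Fin n → ℝ) (a b : Fin m) :
    TT V W y a b = ∑ k, V k a * y k * W k b := by
  unfold TT
  rw [Matrix.mul_apply]
  simp only [Matrix.mul_diagonal, Matrix.transpose_apply]

theorem upd_TT' {n m : ℕ} (V W : Matrix (Fin n) (Fin m) ℝ) (y : Fin n → ℝ) (i : Fin n) (s : ℝ) :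
    TT V W (Function.update y i (y i + s)) = TT V W y + s • Matrix.vecMulVec (V i) (W i) := by
  ext a b
  rw [upd_TT, Matrix.add_apply, upd_TT, Matrix.smul_apply, Matrix.vecMulVec_apply, smul_eq_mul]
  have : ∀ k, V k a * Function.update y i (y i + s) k * W k b =
      V k a * y k * W k b + if k = i then s * (V i a * W i b) else 0 := by
    intro k
    by_cases h : k = i
    · subst h
      rw [Function.update_self, if_pos rfl]
      ring
    · rw [Function.update_of_ne h, if_neg h, add_zero]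
  rw [Finset.sum_congr rfl fun k _ => this k, Finset.sum_add_distrib, Finset.sum_ite_eq']
  simp

theorem upd_pd {n m : ℕ} (V : Matrix (Fin n) (Fin m) ℝ) (hV : Function.Injective V.mulVec)
    (y : Fin n → ℝ) (hy : y ∈ Og n) : (TT V V y).PosDef := by
  unfold TT
  have h := Matrix.PosDef.conjTranspose_mul_mul_same (Matrix.PosDef.diagonal (d := y) hy) hV
  rwa [Matrix.conjTranspose_eq_transpose_of_trivial] at h

section SM

variable {m : ℕ} (H : Matrix (Fin m) (Fin m) ℝ) (hH : H.PosDef) (v : Fin m → ℝ)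

include hH in
theorem upd_symm : (H⁻¹)ᵀ = H⁻¹ := by
  have := hH.inv.isHermitian
  rwa [Matrix.IsHermitian, Matrix.conjTranspose_eq_transpose_of_trivial] at this

include hH in
theorem upd_vH : v ᵥ* H⁻¹ = H⁻¹ *ᵥ v := by
  rw [← Matrix.mulVec_transpose, upd_symm H hH]

include hH in
theorem upd_det0 : IsUnit H.det := (Matrix.isUnit_iff_isUnit_det H).1 hH.isUnit

include hH in
theorem upd_Hu : H *ᵥ (H⁻¹ *ᵥ v) = v := by
  rw [Matrix.mulVec_mulVec, Matrix.mul_nonsing_inv _ (upd_det0 H hH), Matrix.one_mulVec]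

include hH in
theorem upd_h0 : 0 ≤ v ⬝ᵥ (H⁻¹ *ᵥ v) := by
  by_cases h : v = 0
  · rw [h]; simp
  · have := hH.inv.dotProduct_mulVec_pos (x := v) h
    simpa using this.le

include hH in
theorem upd_h1 (h : v ⬝ᵥ (H⁻¹ *ᵥ v) = 0) : v = 0 := by
  by_contra hv
  have := hH.inv.dotProduct_mulVec_pos (x := v) hv
  simp only [star_trivial] at this
  linarith

include hH in
theorem upd_inv (s : ℝ) (hs : 0 ≤ s) :
    (H + s • Matrix.vecMulVec v v)⁻¹ = H⁻¹ - (s / (1 + s * (v ⬝ᵥ (H⁻¹ *ᵥ v)))) •
      Matrix.vecMulVec (H⁻¹ *ᵥ v) (H⁻¹ *ᵥ v) := by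
  have h0 := upd_h0 H hH v
  have h1 : (1 + s * (v ⬝ᵥ (H⁻¹ *ᵥ v))) ≠ 0 := by positivity
  apply Matrix.inv_eq_right_inv
  rw [Matrix.add_mul, Matrix.mul_sub, Matrix.mul_sub, Matrix.mul_nonsing_inv _ (upd_det0 H hH),
    Matrix.mul_smul, Matrix.mul_smul, Matrix.smul_mul, Matrix.smul_mul, Matrix.mul_vecMulVec,
    Matrix.vecMulVec_mul, Matrix.vecMulVec_mul_vecMulVec, upd_Hu H hH, upd_vH H hH]
  ext a b
  simp only [Matrix.add_apply, Matrix.sub_apply, Matrix.smul_apply, Matrix.vecMulVec_apply,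
    smul_eq_mul, Pi.smul_apply]
  field_simp
  ring

include hH in
theorem upd_detf (s : ℝ) : (H + s • Matrix.vecMulVec v v).det =
    H.det * (1 + s * (v ⬝ᵥ (H⁻¹ *ᵥ v))) := by
  have e : s • Matrix.vecMulVec v v = Matrix.replicateCol Unit (s • v) * Matrix.replicateRow Unit v := by
    rw [← Matrix.vecMulVec_eq Unit]
    ext a b
    simp [Matrix.vecMulVec_apply, mul_assoc]
  rw [e, Matrix.det_add_replicateCol_mul_replicateRow (upd_det0 H hH)]
  congr 1
  rw [Matrix.det_unique, Matrix.add_apply, Matrix.one_apply_eq]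
  congr 1
  rw [Matrix.mul_assoc, ← Matrix.replicateCol_mulVec, Matrix.replicateRow_mul_replicateCol_apply,
    Matrix.mulVec_smul, dotProduct_smul, smul_eq_mul]

end SM

theorem st_UPD : ST_UPD := by
  intro n m V Z hV y hy i s hs
  have hH := upd_pd V hV y hy
  have h0 : 0 ≤ hh V y i := upd_h0 _ hH (V i)
  have h1 : (1 + s * hh V y i) ≠ 0 := by positivity
  have hinv : (TT V V (Function.update y i (y i + s)))⁻¹
      = (TT V V y)⁻¹ - (s / (1 + s * hh V y i)) • Matrix.vecMulVec (uu V y i) (uu V y i) := by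
    rw [upd_TT']
    exact upd_inv _ hH (V i) s hs
  have hy' : Function.update y i (y i + s) ∈ Og n := by
    intro x
    by_cases h : x = i
    · subst h
      rw [Function.update_self]
      have := hy x
      linarith
    · rw [Function.update_of_ne h]
      exact hy x
  have hvu : V i ⬝ᵥ uu V y i = hh V y i := rfl
  have huv : uu V y i ⬝ᵥ V i = hh V y i := by rw [dotProduct_comm]; rfl
  have huu' : uu V (Function.update y i (y i + s)) i = (1 / (1 + s * hh V y i)) • uu V y i := by
    unfold uu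
    rw [hinv, Matrix.sub_mulVec, Matrix.smul_mulVec, Matrix.vecMulVec_mulVec, huv]
    show uu V y i - _ = _ • uu V y i
    ext a
    simp only [Pi.sub_apply, Pi.smul_apply, MulOpposite.smul_eq_mul_unop, MulOpposite.unop_op,
      smul_eq_mul]
    field_simp
    ring
  have hBB : BB V Z (Function.update y i (y i + s))
      = BB V Z y + (s / (1 + s * hh V y i)) • Matrix.vecMulVec (uu V y i) (rr V Z y i) := by
    have e1 : BB V Z (Function.update y i (y i + s)) =
        ((TT V V y)⁻¹ - (s / (1 + s * hh V y i)) • Matrix.vecMulVec (uu V y i) (uu V y i)) *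
          (TT V Z y + s • Matrix.vecMulVec (V i) (Z i)) := by
      unfold BB
      rw [hinv, upd_TT' V Z]
    have e2 : uu V y i ᵥ* TT V Z y = (BB V Z y)ᵀ *ᵥ V i := by
      rw [Matrix.mulVec_transpose]
      unfold BB
      rw [← Matrix.vecMul_vecMul, upd_vH _ hH]
      rfl
    rw [e1, Matrix.sub_mul, Matrix.mul_add, Matrix.mul_add, Matrix.mul_smul, Matrix.smul_mul,
      Matrix.smul_mul, Matrix.mul_smul, Matrix.mul_vecMulVec, Matrix.vecMulVec_mul,
      Matrix.vecMulVec_mul_vecMulVec, huv, e2]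
    show BB V Z y + s • Matrix.vecMulVec (uu V y i) (Z i) - _ = _
    ext a b
    simp only [Matrix.add_apply, Matrix.sub_apply, Matrix.smul_apply, Matrix.vecMulVec_apply,
      smul_eq_mul, Pi.smul_apply, rr, Pi.sub_apply]
    field_simp
    ring
  have hhh : hh V (Function.update y i (y i + s)) i = hh V y i / (1 + s * hh V y i) := by
    unfold hh
    rw [huu', dotProduct_smul, smul_eq_mul]
    show 1 / (1 + s * hh V y i) * hh V y i = hh V y i / (1 + s * hh V y i)
    ring
  refine ⟨hy', ?_, h0, upd_h1 _ hH (V i), ?_, hinv, hBB, hhh, ?_⟩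
  · exact hH.det_pos
  · unfold qf
    rw [upd_TT']
    exact upd_detf _ hH (V i) s
  · have hrr : rr V Z (Function.update y i (y i + s)) i = (1 / (1 + s * hh V y i)) • rr V Z y i := by
      have e3 : rr V Z (Function.update y i (y i + s)) i = Z i -
          (BB V Z y + (s / (1 + s * hh V y i)) • Matrix.vecMulVec (uu V y i) (rr V Z y i))ᵀ *ᵥ V i := by
        rw [← hBB]
        rfl
      rw [e3, Matrix.transpose_add, Matrix.add_mulVec, Matrix.transpose_smul, Matrix.smul_mulVec,
        Matrix.mulVec_transpose (Matrix.vecMulVec _ _), Matrix.vecMul_vecMulVec, hvu]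
      have e4 : (BB V Z y)ᵀ *ᵥ V i = Z i - rr V Z y i := by
        unfold rr
        abel
      rw [e4]
      ext a
      simp only [Pi.sub_apply, Pi.add_apply, Pi.smul_apply, smul_eq_mul]
      field_simp
      ring
    unfold ka
    rw [huu', hrr, smul_dotProduct, dotProduct_smul, smul_eq_mul, smul_eq_mul]
    field_simp

end Pool.Agent.Helper44.GH
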